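import Pool.Agent.H84.LFInt

/-!
MP_0c4eaf_nt, Q1: the pairs `(F, G)` of linear forms with property (S), for every ring.
-/

namespace Pool.Agent.Results.MP_0c4eaf_nt.Classification

open scoped BigOperators
open Pool.Agent.H88.LF

universe u

/-- The pair `(F, G)` has property (S) if and only if for every specialisation
`G = ∑ c, G_c(x^(c))` of `G` (given by maps `τ`, `κ`) there is a proper right ideal `I` of finite
index which separates `F` from the forms `G_c`.  Over the integers, with `F ≠ 0`: if and only if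
for every specialisation in which some nonzero `G_c` is a rational multiple of `F` there is an
integer `N ≥ 2`, coprime to the content of `F`, such that for every `c` all coefficients of `G_c`
are divisible by `N` or some `2 × 2` minor of `(F, G_c)` is not. -/
theorem result :
    (∀ (R : Type u) [Ring R] (h k : ℕ), 0 < h → 0 < k → ∀ (F : Fin h → R) (G : Fin k → R),
      (PropertyS F G ↔
        ∀ (τ : Fin k → Fin h) (κ : Fin k → Fin k), ∃ I : Submodule Rᵐᵒᵖ R,
          I ≠ ⊤ ∧ Finite (R ⧸ I) ∧
          (∀ x : R, (∀ i, x * F i ∈ I) → x ∈ I) ∧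
          ∀ c, ∀ x : R, (∀ i, specialise G τ κ c i - x * F i ∈ I) → x ∈ I)) ∧
    (∀ h k : ℕ, 0 < h → 0 < k → ∀ (F : Fin h → ℤ) (G : Fin k → ℤ), F ≠ 0 →
      (PropertyS F G ↔
        ∀ (τ : Fin k → Fin h) (κ : Fin k → Fin k),
          (∃ c, specialise G τ κ c ≠ 0 ∧
            ∀ i j, F i * specialise G τ κ c j = F j * specialise G τ κ c i) →
          ∃ N : ℕ, 2 ≤ N ∧ IsCoprime (Finset.univ.gcd F) (N : ℤ) ∧
            ∀ c, (∀ i, (N : ℤ) ∣ specialise G τ κ c i) ∨
              ∃ i j, ¬ (N : ℤ) ∣ F i * specialise G τ κ c j - F j * specialise G τ κ c i)) :=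
  ⟨fun _ _ _ _ hh hk F G => Pool.Agent.H84.LFFull.propertyS_iff hh hk F G,
    fun _ _ hh hk F G hF => Pool.Agent.H84.LFFull.propertyS_int_iff' hh hk F hF G⟩

end Pool.Agent.Results.MP_0c4eaf_nt.Classification
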