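import Pool.Agent.H88.LFMain

/-!
MP_0c4eaf_nt, Q1 over the integers (finite abelian groups): explicit determination of property (S)
for every integral form `F` and every form `G` with coefficients `1` and `-1`.
-/

namespace Pool.Agent.Results.MP_0c4eaf_nt.SignForms

open scoped BigOperators
open Pool.Agent.H88.LF

/-- The sum of the positive coefficients of `F`. -/
def posSum {h : ℕ} (F : Fin h → ℤ) : ℤ := ∑ i, max (F i) 0

/-- The sum of the absolute values of the negative coefficients of `F`. -/
def negSum {h : ℕ} (F : Fin h → ℤ) : ℤ := ∑ i, max (-F i) 0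

/-- The greatest common divisor of the coefficients of `F`. -/
def content {h : ℕ} (F : Fin h → ℤ) : ℤ := Finset.univ.gcd F

/-- The number of coefficients of `G` equal to `e`. -/
def count {k : ℕ} (G : Fin k → ℤ) (e : ℤ) : ℤ := ((Finset.univ.filter fun j => G j = e).card : ℤ)

/-- The ideal `p ℤ` as a right ideal. -/
def pI (p : ℕ) : Submodule ℤᵐᵒᵖ ℤ where
  carrier := {x | (p : ℤ) ∣ x}
  zero_mem' := dvd_zero _
  add_mem' := fun ha hb => dvd_add ha hb
  smul_mem' := fun r x hx => by
    change (p : ℤ) ∣ x * r.unop
    exact Dvd.dvd.mul_right hx _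

theorem mem_pI {p : ℕ} {x : ℤ} : x ∈ pI p ↔ (p : ℤ) ∣ x := Iff.rfl

theorem finite_pI {p : ℕ} (hp : p ≠ 0) : Finite (ℤ ⧸ pI p) := by
  have : NeZero p := ⟨hp⟩
  refine Finite.of_injective (fun q : ℤ ⧸ pI p => ((Quotient.out q : ℤ) : ZMod p)) ?_
  intro a b hab
  have h1 : (Quotient.out a : ℤ) - Quotient.out b ∈ pI p := by
    rw [mem_pI]
    have := (ZMod.intCast_eq_intCast_iff_dvd_sub _ _ p).1 hab.symm
    exact this
  have h2 : (Submodule.Quotient.mk (Quotient.out a) : ℤ ⧸ pI p) =
      Submodule.Quotient.mk (Quotient.out b) := (Submodule.Quotient.eq _).2 h1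
  have ha : (Submodule.Quotient.mk (Quotient.out a) : ℤ ⧸ pI p) = a := Quotient.out_eq a
  have hb : (Submodule.Quotient.mk (Quotient.out b) : ℤ ⧸ pI p) = b := Quotient.out_eq b
  rw [← ha, ← hb, h2]

theorem content_pos {h : ℕ} {F : Fin h → ℤ} (hF : F ≠ 0) : 0 < content F := by
  have h1 : content F ≠ 0 := by
    intro h0
    apply hF
    ext i
    exact Finset.gcd_eq_zero_iff.1 h0 i (Finset.mem_univ i)
  have h2 : 0 ≤ content F := Finset.Int.finsetGcd_nonneg
  omega

theorem content_dvd {h : ℕ} (F : Fin h → ℤ) (i : Fin h) : content F ∣ F i :=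
  Finset.gcd_dvd (Finset.mem_univ i)

/-- The number of variables with a given sign in a fibre. -/
def fib {h k : ℕ} (G : Fin k → ℤ) (τ : Fin k → Fin h) (κ : Fin k → Fin k) (c : Fin k) (e : ℤ)
    (i : Fin h) : ℤ :=
  ((Finset.univ.filter fun j => (κ j = c ∧ τ j = i) ∧ G j = e).card : ℤ)

theorem specialise_eq {h k : ℕ} (G : Fin k → ℤ) (hG : ∀ j, G j = 1 ∨ G j = -1)
    (τ : Fin k → Fin h) (κ : Fin k → Fin k) (c : Fin k) (i : Fin h) :
    specialise G τ κ c i = fib G τ κ c 1 i - fib G τ κ c (-1) i := by
  classical
  unfold specialise fib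
  rw [Finset.card_filter, Finset.card_filter, Finset.sum_filter]
  push_cast
  rw [← Finset.sum_sub_distrib]
  apply Finset.sum_congr rfl
  intro j _
  by_cases hj : κ j = c ∧ τ j = i
  · rcases hG j with h1 | h1 <;> simp [hj, h1]
  · simp [hj]

theorem fib_nonneg {h k : ℕ} (G : Fin k → ℤ) (τ : Fin k → Fin h) (κ : Fin k → Fin k) (c : Fin k)
    (e : ℤ) (i : Fin h) : 0 ≤ fib G τ κ c e i := by unfold fib; positivity

theorem sum_fib_le {h k : ℕ} (G : Fin k → ℤ) (τ : Fin k → Fin h) (κ : Fin k → Fin k) (c : Fin k)
    (e : ℤ) : ∑ i, fib G τ κ c e i ≤ count G e := by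
  classical
  unfold fib count
  rw [← Nat.cast_sum]
  have h1 : ∑ i : Fin h, (Finset.univ.filter fun j => (κ j = c ∧ τ j = i) ∧ G j = e).card ≤
      (Finset.univ.filter fun j => G j = e).card := by
    rw [← Finset.card_biUnion]
    · apply Finset.card_le_card
      intro j hj
      simp only [Finset.mem_biUnion, Finset.mem_filter, Finset.mem_univ, true_and] at hj ⊢
      obtain ⟨i, hi⟩ := hj
      exact hi.2
    · intro i _ i' _ hne
      rw [Function.onFun, Finset.disjoint_left]
      intro j hj hj'
      simp only [Finset.mem_filter, Finset.mem_univ, true_and] at hj hj'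
      exact hne (hj.1.2.symm.trans hj'.1.2)
  exact_mod_cast h1

theorem fib_le {h k : ℕ} (G : Fin k → ℤ) (τ : Fin k → Fin h) (κ : Fin k → Fin k) (c : Fin k)
    (e : ℤ) (i : Fin h) : fib G τ κ c e i ≤ k := by
  classical
  unfold fib
  have : (Finset.univ.filter fun j => (κ j = c ∧ τ j = i) ∧ G j = e).card ≤ k := by
    refine (Finset.card_le_univ _).trans ?_
    simp
  exact_mod_cast this

/-- Sufficiency half. -/
theorem suff {h k : ℕ} (hk : 0 < k) (F : Fin h → ℤ) (hF : F ≠ 0) (G : Fin k → ℤ)
    (hG : ∀ j, G j = 1 ∨ G j = -1)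
    (H1 : ¬ (posSum F ≤ content F * count G 1 ∧ negSum F ≤ content F * count G (-1)))
    (H2 : ¬ (posSum F ≤ content F * count G (-1) ∧ negSum F ≤ content F * count G 1)) :
    PropertyS F G := by
  classical
  have hh : 0 < h := by
    rcases Nat.eq_zero_or_pos h with h0 | h0
    · subst h0
      exact absurd (Subsingleton.elim F 0) hF
    · exact h0
  have hd := content_pos hF
  obtain ⟨i₀, hi₀⟩ : ∃ i, F i ≠ 0 := Function.ne_iff.1 hF
  -- a large prime
  obtain ⟨B, hB⟩ : ∃ B : ℕ, ∀ i, |F i| ≤ B := by
    refine ⟨∑ i, (F i).natAbs, fun i => ?_⟩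
    have := Finset.single_le_sum (f := fun i => (F i).natAbs) (fun _ _ => Nat.zero_le _)
      (Finset.mem_univ i)
    rw [Int.abs_eq_natAbs]
    exact_mod_cast this
  obtain ⟨p, hpge, hp⟩ := Nat.exists_infinite_primes (2 * k * B + (content F).toNat + 1)
  have hpk : 2 * (k : ℤ) * B < p := by
    have : 2 * k * B < p := by omega
    exact_mod_cast this
  have hpd : content F < p := by
    have h1 : (content F).toNat < p := by omega
    have h2 : ((content F).toNat : ℤ) = content F := Int.toNat_of_nonneg hd.le
    rw [← h2]; exact_mod_cast h1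
  have hpp : Prime (p : ℤ) := Nat.prime_iff_prime_int.1 hp
  have hpF : ∀ x : ℤ, (∀ i, (p : ℤ) ∣ x * F i) → (p : ℤ) ∣ x := by
    intro x hx
    obtain ⟨g, hg⟩ := Finset.gcd_eq_sum_mul Finset.univ F
    have h1 : (p : ℤ) ∣ x * content F := by
      have : x * content F = ∑ i, (x * F i) * g i := by
        unfold content
        rw [hg, Finset.mul_sum]
        apply Finset.sum_congr rfl
        intro i _
        ring
      rw [this]
      exact Finset.dvd_sum fun i _ => Dvd.dvd.mul_right (hx i) _
    rcases hpp.dvd_or_dvd h1 with h2 | h2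
    · exact h2
    · exact absurd (Int.le_of_dvd hd h2) (by omega)
  apply propertyS_of_inequality hh hk
  intro τ κ
  have hfin : Finite (ℤ ⧸ pI p) := finite_pI hp.ne_zero
  have hsep : Separates (pI p) F (specialise G τ κ) := by
    refine ⟨fun x hx => hpF x hx, fun c x hx => ?_⟩
    by_contra hxp
    set V := specialise G τ κ c with hV
    have hVabs : ∀ i, |V i| ≤ k := by
      intro i
      rw [hV, specialise_eq G hG, abs_le]
      have h1 := fib_le G τ κ c 1 i
      have h2 := fib_le G τ κ c (-1) i
      have h3 := fib_nonneg G τ κ c 1 i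
      have h4 := fib_nonneg G τ κ c (-1) i
      constructor <;> omega
    -- all minors vanish
    have hmin : ∀ i j, V i * F j = V j * F i := by
      intro i j
      have h1 : (p : ℤ) ∣ V i * F j - V j * F i := by
        have e : V i * F j - V j * F i = (V i - x * F i) * F j - (V j - x * F j) * F i := by ring
        rw [e]
        exact dvd_sub (Dvd.dvd.mul_right (hx i) _) (Dvd.dvd.mul_right (hx j) _)
      have h2 : |V i * F j - V j * F i| < p := by
        have h3 : |V i * F j| ≤ k * B := by
          rw [abs_mul]
          exact mul_le_mul (hVabs i) (hB j) (abs_nonneg _) (by positivity)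
        have h4 : |V j * F i| ≤ k * B := by
          rw [abs_mul]
          exact mul_le_mul (hVabs j) (hB i) (abs_nonneg _) (by positivity)
        have h5 := abs_sub (V i * F j) (V j * F i)
        linarith
      have := Int.eq_zero_of_abs_lt_dvd h1 h2
      linarith
    obtain ⟨g, hg⟩ := Finset.gcd_eq_sum_mul Finset.univ F
    set l := ∑ i, V i * g i with hl
    have hlam : ∀ i, V i * content F = l * F i := by
      intro i
      unfold content
      rw [hg, hl, Finset.mul_sum, Finset.sum_mul]
      apply Finset.sum_congr rfl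
      intro j _
      have := hmin i j
      calc V i * (F j * g j) = (V i * F j) * g j := by ring
        _ = (V j * F i) * g j := by rw [this]
        _ = V j * g j * F i := by ring
    have hl0 : l ≠ 0 := by
      intro h0
      apply hxp
      apply hpF
      intro i
      have h1 := hlam i
      rw [h0, zero_mul] at h1
      have h2 : V i = 0 := by
        rcases mul_eq_zero.1 h1 with h3 | h3
        · exact h3
        · exact absurd h3 hd.ne'
      have h3 := hx i
      have h4 : (p : ℤ) ∣ V i - x * F i := h3
      rw [h2, zero_sub] at h4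
      exact (dvd_neg.1 h4)
    have hVf : ∀ i, V i = fib G τ κ c 1 i - fib G τ κ c (-1) i := specialise_eq G hG τ κ c
    rcases lt_or_gt_of_ne hl0 with hneg | hpos
    · -- `l < 0`
      apply H2
      constructor
      · have h1 : ∀ i, max (F i) 0 ≤ content F * fib G τ κ c (-1) i := by
          intro i
          apply max_le
          · by_cases hFi : F i ≤ 0
            · exact hFi.trans (mul_nonneg hd.le (fib_nonneg _ _ _ _ _ _))
            · push Not at hFi
              have h2 := hlam i
              have h3 : F i ≤ -(l * F i) := by nlinarith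
              have h4 : -(V i * content F) ≤ content F * fib G τ κ c (-1) i := by
                rw [hVf]
                nlinarith [fib_nonneg G τ κ c 1 i]
              linarith
          · exact mul_nonneg hd.le (fib_nonneg _ _ _ _ _ _)
        calc posSum F ≤ ∑ i, content F * fib G τ κ c (-1) i := Finset.sum_le_sum fun i _ => h1 i
          _ = content F * ∑ i, fib G τ κ c (-1) i := by rw [Finset.mul_sum]
          _ ≤ content F * count G (-1) := mul_le_mul_of_nonneg_left (sum_fib_le _ _ _ _ _) hd.le
      · have h1 : ∀ i, max (-F i) 0 ≤ content F * fib G τ κ c 1 i := by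
          intro i
          apply max_le
          · by_cases hFi : 0 ≤ F i
            · have := mul_nonneg hd.le (fib_nonneg G τ κ c 1 i)
              linarith
            · push Not at hFi
              have h2 := hlam i
              have h3 : -F i ≤ l * F i := by nlinarith
              have h4 : V i * content F ≤ content F * fib G τ κ c 1 i := by
                rw [hVf]
                nlinarith [fib_nonneg G τ κ c (-1) i]
              linarith
          · exact mul_nonneg hd.le (fib_nonneg _ _ _ _ _ _)
        calc negSum F ≤ ∑ i, content F * fib G τ κ c 1 i := Finset.sum_le_sum fun i _ => h1 i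
          _ = content F * ∑ i, fib G τ κ c 1 i := by rw [Finset.mul_sum]
          _ ≤ content F * count G 1 := mul_le_mul_of_nonneg_left (sum_fib_le _ _ _ _ _) hd.le
    · apply H1
      constructor
      · have h1 : ∀ i, max (F i) 0 ≤ content F * fib G τ κ c 1 i := by
          intro i
          apply max_le
          · by_cases hFi : F i ≤ 0
            · exact hFi.trans (mul_nonneg hd.le (fib_nonneg _ _ _ _ _ _))
            · push Not at hFi
              have h2 := hlam i
              have h3 : F i ≤ l * F i := by nlinarith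
              have h4 : V i * content F ≤ content F * fib G τ κ c 1 i := by
                rw [hVf]
                nlinarith [fib_nonneg G τ κ c (-1) i]
              linarith
          · exact mul_nonneg hd.le (fib_nonneg _ _ _ _ _ _)
        calc posSum F ≤ ∑ i, content F * fib G τ κ c 1 i := Finset.sum_le_sum fun i _ => h1 i
          _ = content F * ∑ i, fib G τ κ c 1 i := by rw [Finset.mul_sum]
          _ ≤ content F * count G 1 := mul_le_mul_of_nonneg_left (sum_fib_le _ _ _ _ _) hd.le
      · have h1 : ∀ i, max (-F i) 0 ≤ content F * fib G τ κ c (-1) i := by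
          intro i
          apply max_le
          · by_cases hFi : 0 ≤ F i
            · have := mul_nonneg hd.le (fib_nonneg G τ κ c (-1) i)
              linarith
            · push Not at hFi
              have h2 := hlam i
              have h3 : -F i ≤ -(l * F i) := by nlinarith
              have h4 : -(V i * content F) ≤ content F * fib G τ κ c (-1) i := by
                rw [hVf]
                nlinarith [fib_nonneg G τ κ c 1 i]
              linarith
          · exact mul_nonneg hd.le (fib_nonneg _ _ _ _ _ _)
        calc negSum F ≤ ∑ i, content F * fib G τ κ c (-1) i := Finset.sum_le_sum fun i _ => h1 i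
          _ = content F * ∑ i, fib G τ κ c (-1) i := by rw [Finset.mul_sum]
          _ ≤ content F * count G (-1) := mul_le_mul_of_nonneg_left (sum_fib_le _ _ _ _ _) hd.le
  refine ⟨pI p, hfin, hsep.1, inequality_of_separates (pI p) ?_ F _ hsep
    (Or.inr ⟨p, hp, mem_pI.2 (by simp)⟩)⟩
  intro htop
  have : (1 : ℤ) ∈ pI p := by rw [htop]; trivial
  rw [mem_pI] at this
  exact hpp.not_isUnit (isUnit_of_dvd_one this)

/-- Every integer vector `v ≠ 0` whose positive and negative parts are not too large is one of the
specialisations of `G`. -/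
theorem assign {h k : ℕ} (G : Fin k → ℤ) (hG : ∀ j, G j = 1 ∨ G j = -1) (v : Fin h → ℤ)
    (hv : v ≠ 0) (hP : ((∑ i, (v i).toNat : ℕ) : ℤ) ≤ count G 1)
    (hN : ((∑ i, (-v i).toNat : ℕ) : ℤ) ≤ count G (-1)) :
    ∃ (τ : Fin k → Fin h) (κ : Fin k → Fin k) (c : Fin k), specialise G τ κ c = v := by
  classical
  obtain ⟨i₀, hi₀⟩ : ∃ i, v i ≠ 0 := Function.ne_iff.1 hv
  have hP' : ∑ i, (v i).toNat ≤ (Finset.univ.filter fun j => G j = 1).card := by
    unfold count at hP; exact_mod_cast hP
  have hN' : ∑ i, (-v i).toNat ≤ (Finset.univ.filter fun j => G j = -1).card := by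
    unfold count at hN; exact_mod_cast hN
  have c1 : Fintype.card (Σ i : Fin h, Fin (v i).toNat) ≤ Fintype.card {j : Fin k // G j = 1} := by
    rw [Fintype.card_sigma, Fintype.card_subtype]
    simpa using hP'
  have c2 : Fintype.card (Σ i : Fin h, Fin (-v i).toNat) ≤
      Fintype.card {j : Fin k // G j = -1} := by
    rw [Fintype.card_sigma, Fintype.card_subtype]
    simpa using hN'
  obtain ⟨f1⟩ := Function.Embedding.nonempty_of_card_le c1
  obtain ⟨f2⟩ := Function.Embedding.nonempty_of_card_le c2
  -- the assignment
  let t : Fin k → Option (Fin h) := fun j =>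
    if hj : ∃ x, (f1 x : Fin k) = j then some hj.choose.1
    else if hj : ∃ x, (f2 x : Fin k) = j then some hj.choose.1 else none
  have ht1 : ∀ x, t (f1 x) = some x.1 := by
    intro x
    have hj : ∃ y, (f1 y : Fin k) = (f1 x : Fin k) := ⟨x, rfl⟩
    simp only [t, dif_pos hj]
    have : hj.choose = x := f1.injective (Subtype.ext hj.choose_spec)
    rw [this]
  have ht2 : ∀ x, t (f2 x) = some x.1 := by
    intro x
    have hj' : ¬ ∃ y, (f1 y : Fin k) = (f2 x : Fin k) := by
      rintro ⟨y, hy⟩
      have h1 := (f1 y).2
      have h2 := (f2 x).2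
      rw [hy] at h1
      omega
    have hj : ∃ y, (f2 y : Fin k) = (f2 x : Fin k) := ⟨x, rfl⟩
    simp only [t, dif_neg hj', dif_pos hj]
    have : hj.choose = x := f2.injective (Subtype.ext hj.choose_spec)
    rw [this]
  have ht : ∀ j i, t j = some i → (∃ m, (f1 ⟨i, m⟩ : Fin k) = j) ∨ (∃ m, (f2 ⟨i, m⟩ : Fin k) = j) := by
    intro j i hji
    by_cases h1 : ∃ x, (f1 x : Fin k) = j
    · obtain ⟨⟨i', m⟩, hx⟩ := h1
      have h2 := ht1 ⟨i', m⟩
      rw [hx, hji] at h2
      simp only [Option.some.injEq] at h2
      subst h2
      exact Or.inl ⟨m, hx⟩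
    · by_cases h2 : ∃ x, (f2 x : Fin k) = j
      · obtain ⟨⟨i', m⟩, hx⟩ := h2
        have h3 := ht2 ⟨i', m⟩
        rw [hx, hji] at h3
        simp only [Option.some.injEq] at h3
        subst h3
        exact Or.inr ⟨m, hx⟩
      · simp only [t, dif_neg h1, dif_neg h2] at hji
        exact absurd hji (by simp)
  -- some variable is used
  obtain ⟨j₀, hj₀⟩ : ∃ j₀, (t j₀).isSome := by
    rcases lt_or_gt_of_ne hi₀ with h1 | h1
    · exact ⟨f2 ⟨i₀, ⟨0, by omega⟩⟩, by rw [ht2]; rfl⟩
    · exact ⟨f1 ⟨i₀, ⟨0, by omega⟩⟩, by rw [ht1]; rfl⟩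
  let κ : Fin k → Fin k := fun j => if (t j).isSome then j₀ else j
  have hκ : ∀ j, κ j = j₀ ↔ (t j).isSome := by
    intro j
    by_cases hj : (t j).isSome
    · simp only [κ, if_pos hj, hj]
    · simp only [κ, if_neg hj, hj]
      constructor
      · intro h1; rw [h1] at hj; exact absurd hj₀ hj
      · intro h1; exact absurd h1 (by simp)
  let τ : Fin k → Fin h := fun j => (t j).getD i₀
  have hτκ : ∀ j i, (κ j = j₀ ∧ τ j = i) ↔ t j = some i := by
    intro j i
    rw [hκ]
    constructor
    · rintro ⟨h1, h2⟩
      obtain ⟨a, ha⟩ := Option.isSome_iff_exists.1 h1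
      simp only [τ, ha, Option.getD_some] at h2
      rw [ha, h2]
    · intro h1
      simp [h1, τ]
  refine ⟨τ, κ, j₀, ?_⟩
  ext i
  rw [specialise_eq G hG]
  have e1 : fib G τ κ j₀ 1 i = ((v i).toNat : ℤ) := by
    unfold fib
    have : (Finset.univ.filter fun j => (κ j = j₀ ∧ τ j = i) ∧ G j = 1) =
        Finset.univ.image (fun m : Fin (v i).toNat => (f1 ⟨i, m⟩ : Fin k)) := by
      ext j
      simp only [Finset.mem_filter, Finset.mem_univ, true_and, Finset.mem_image, hτκ]
      constructor
      · rintro ⟨h1, h2⟩
        rcases ht j i h1 with h3 | ⟨m, h3⟩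
        · exact h3
        · have := (f2 ⟨i, m⟩).2
          rw [h3] at this
          omega
      · rintro ⟨m, rfl⟩
        exact ⟨ht1 _, (f1 ⟨i, m⟩).2⟩
    rw [this, Finset.card_image_of_injective]
    · simp
    · intro m m' hmm
      have := f1.injective (Subtype.ext hmm)
      simpa using this
  have e2 : fib G τ κ j₀ (-1) i = ((-v i).toNat : ℤ) := by
    unfold fib
    have : (Finset.univ.filter fun j => (κ j = j₀ ∧ τ j = i) ∧ G j = -1) =
        Finset.univ.image (fun m : Fin (-v i).toNat => (f2 ⟨i, m⟩ : Fin k)) := by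
      ext j
      simp only [Finset.mem_filter, Finset.mem_univ, true_and, Finset.mem_image, hτκ]
      constructor
      · rintro ⟨h1, h2⟩
        rcases ht j i h1 with ⟨m, h3⟩ | h3
        · have := (f1 ⟨i, m⟩).2
          rw [h3] at this
          omega
        · exact h3
      · rintro ⟨m, rfl⟩
        exact ⟨ht2 _, (f2 ⟨i, m⟩).2⟩
    rw [this, Finset.card_image_of_injective]
    · simp
    · intro m m' hmm
      have := f2.injective (Subtype.ext hmm)
      simpa using this
  rw [e1, e2]
  omega

/-- If a specialisation of `G` is `± F / content F` then property (S) fails. -/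
theorem nec_aux {h k : ℕ} (hk : 0 < k) (F : Fin h → ℤ) (G : Fin k → ℤ)
    (e : ℤ) (he : e = 1 ∨ e = -1) (r : Fin h → ℤ) (hr : ∀ i, F i = content F * r i)
    (τ : Fin k → Fin h) (κ : Fin k → Fin k) (c : Fin k)
    (hV : specialise G τ κ c = fun i => e * r i) : ¬ PropertyS F G := by
  intro H
  obtain ⟨I, hI, hfin, h1, h2⟩ := separates_of_propertyS hk F G H τ κ
  have hmul : ∀ x y : ℤ, x ∈ I → x * y ∈ I := by
    intro x y hx
    have := I.smul_mem (MulOpposite.op y) hx
    simpa using this
  have hinj : Function.Injective (DualMod.rmul I (content F)) := by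
    rw [injective_iff_map_eq_zero]
    intro q hq
    obtain ⟨x, rfl⟩ := Submodule.Quotient.mk_surjective I q
    rw [Submodule.Quotient.mk_eq_zero]
    rw [DualMod.rmul_mk, Submodule.Quotient.mk_eq_zero] at hq
    apply h1
    intro i
    rw [hr i, ← mul_assoc]
    exact hmul _ _ hq
  have hsurj : Function.Surjective (DualMod.rmul I (content F)) :=
    Finite.injective_iff_surjective.1 hinj
  obtain ⟨q, hq⟩ := hsurj (Submodule.Quotient.mk e)
  obtain ⟨x, rfl⟩ := Submodule.Quotient.mk_surjective I q
  rw [DualMod.rmul_mk, Submodule.Quotient.eq] at hq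
  have hx : x ∈ I := by
    apply h2 c x
    intro i
    rw [hV]
    have : e * r i - x * F i = (x * content F - e) * (-r i) := by rw [hr i]; ring
    simp only
    rw [this]
    exact hmul _ _ hq
  have he1 : e ∈ I := by
    have h3 := I.sub_mem (hmul x (content F) hx) hq
    have : x * content F - (x * content F - e) = e := by ring
    rwa [this] at h3
  have h11 : (1 : ℤ) ∈ I := by
    have h3 := hmul e e he1
    rcases he with he | he <;> rw [he] at h3 <;> simpa using h3
  apply hI
  rw [eq_top_iff]
  intro y _
  have := hmul 1 y h11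
  simpa using this

/-- Let `F ≠ 0` be an integral linear form with positive coefficient sum `posSum F`, sum of absolute
values of its negative coefficients `negSum F` and content `d`, and let `G` be a form with `a`
coefficients `1` and `b` coefficients `-1` (and no others).  Then `(F, G)` has property (S) over the
integers if and only if neither (`posSum F ≤ d a` and `negSum F ≤ d b`) nor
(`posSum F ≤ d b` and `negSum F ≤ d a`). -/
theorem result {h k : ℕ} (hk : 0 < k) (F : Fin h → ℤ) (hF : F ≠ 0) (G : Fin k → ℤ)
    (hG : ∀ j, G j = 1 ∨ G j = -1) :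
    PropertyS F G ↔
      ¬ (posSum F ≤ content F * count G 1 ∧ negSum F ≤ content F * count G (-1)) ∧
      ¬ (posSum F ≤ content F * count G (-1) ∧ negSum F ≤ content F * count G 1) := by
  constructor
  · intro H
    have hd := content_pos hF
    choose r hr using content_dvd F
    have hr0 : r ≠ 0 := by
      rintro rfl
      apply hF
      ext i
      rw [hr i]; simp
    have hpos : content F * ((∑ i, (r i).toNat : ℕ) : ℤ) = posSum F := by
      unfold posSum
      push_cast
      rw [Finset.mul_sum]
      apply Finset.sum_congr rfl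
      intro i _
      have h3 := hr i
      rcases le_total 0 (r i) with h1 | h1
      · have h4 := mul_nonneg hd.le h1
        rw [Int.toNat_of_nonneg h1, ← h3, max_eq_left (by rw [h3]; exact h4)]
      · have h4 := mul_nonpos_of_nonneg_of_nonpos hd.le h1
        rw [Int.toNat_of_nonpos h1, max_eq_right (by rw [h3]; exact h4)]
        simp
    have hneg : content F * ((∑ i, (-r i).toNat : ℕ) : ℤ) = negSum F := by
      unfold negSum
      push_cast
      rw [Finset.mul_sum]
      apply Finset.sum_congr rfl
      intro i _
      have h3 := hr i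
      rcases le_total 0 (r i) with h1 | h1
      · have h4 := mul_nonneg hd.le h1
        rw [Int.toNat_of_nonpos (by omega), max_eq_right (by rw [h3]; linarith)]
        simp
      · have h4 := mul_nonpos_of_nonneg_of_nonpos hd.le h1
        rw [Int.toNat_of_nonneg (by omega), mul_neg, ← h3, max_eq_left (by rw [h3]; linarith)]
    constructor
    · rintro ⟨h1, h2⟩
      rw [← hpos] at h1
      rw [← hneg] at h2
      obtain ⟨τ, κ, c, hV⟩ := assign G hG r hr0 (le_of_mul_le_mul_left h1 hd)
        (le_of_mul_le_mul_left h2 hd)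
      exact nec_aux hk F G 1 (Or.inl rfl) r hr τ κ c (by rw [hV]; ext i; ring) H
    · rintro ⟨h1, h2⟩
      rw [← hpos] at h1
      rw [← hneg] at h2
      obtain ⟨τ, κ, c, hV⟩ := assign G hG (fun i => -r i) (by
          intro h3
          apply hr0
          ext i
          have := congrFun h3 i
          simpa using this)
        (by simpa using le_of_mul_le_mul_left h2 hd)
        (by simpa using le_of_mul_le_mul_left h1 hd)
      exact nec_aux hk F G (-1) (Or.inr rfl) r hr τ κ c (by rw [hV]; ext i; ring) H
  · rintro ⟨H1, H2⟩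
    exact suff hk F hF G hG H1 H2

end Pool.Agent.Results.MP_0c4eaf_nt.SignForms
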